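import Mathlib

set_option autoImplicit false
open scoped Classical
open MeasureTheory

namespace Pool.Agent.H27R3

/-- mass function `p_i = 1/(i+1)! - 1/(i+2)!` -/
noncomputable def pm (i : ℕ) : ℝ := 1 / ((i + 1).factorial : ℝ) - 1 / ((i + 2).factorial : ℝ)

theorem pm_eq (i : ℕ) : pm i = (i + 1 : ℝ) / ((i + 2).factorial : ℝ) := by
  unfold pm
  rw [Nat.factorial_succ (i + 1)]
  have : ((i + 1).factorial : ℝ) ≠ 0 := by positivity
  push_cast
  field_simp
  ring

theorem pm_pos (i : ℕ) : 0 < pm i := by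
  rw [pm_eq]; positivity

theorem pm_antitone : Antitone pm := by
  refine antitone_nat_of_succ_le (fun i => ?_)
  rw [pm_eq, pm_eq, Nat.factorial_succ (i + 2), div_le_div_iff₀ (by positivity) (by positivity)]
  push_cast
  have : (0 : ℝ) < ((i + 2).factorial : ℝ) := by positivity
  have h2 : (0 : ℝ) ≤ (i : ℝ) := by positivity
  nlinarith [mul_nonneg h2 this.le, mul_nonneg (mul_nonneg h2 h2) this.le]

theorem tail_hasSum (J : ℕ) : HasSum (fun i => pm (i + J)) (1 / ((J + 1).factorial : ℝ)) := by
  have hs : ∀ N : ℕ, ∑ i ∈ Finset.range N, pm (i + J) =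
      1 / ((J + 1).factorial : ℝ) - 1 / ((N + J + 1).factorial : ℝ) := by
    intro N
    induction N with
    | zero => simp
    | succ N ih =>
      rw [Finset.sum_range_succ, ih, pm]
      have : N + 1 + J + 1 = N + J + 2 := by ring
      rw [this]
      ring
  rw [hasSum_iff_tendsto_nat_of_nonneg (fun i => (pm_pos _).le)]
  simp_rw [hs]
  have h0 : Filter.Tendsto (fun N : ℕ => 1 / ((N + J + 1).factorial : ℝ)) Filter.atTop (nhds 0) := by
    have h1 : Filter.Tendsto (fun N : ℕ => 1 / ((N : ℝ) + 1)) Filter.atTop (nhds 0) :=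
      tendsto_one_div_add_atTop_nhds_zero_nat
    refine squeeze_zero (fun N => by positivity) (fun N => ?_) h1
    apply one_div_le_one_div_of_le (by positivity)
    have : N + 1 ≤ (N + J + 1).factorial := (by omega : N + 1 ≤ N + J + 1).trans (Nat.self_le_factorial _)
    exact_mod_cast this
  simpa using h0.const_sub (1 / ((J + 1).factorial : ℝ))

/-- The measure on `ℕ`. -/
noncomputable def nuPMF : PMF ℕ :=
  ⟨fun i => ENNReal.ofReal (pm i), by
    have h := (tail_hasSum 0)
    simp only [Nat.add_zero] at h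
    have h2 : ∑' i, ENNReal.ofReal (pm i) = ENNReal.ofReal (∑' i, pm i) :=
      (ENNReal.ofReal_tsum_of_nonneg (fun i => (pm_pos i).le) h.summable).symm
    rw [h.tsum_eq] at h2
    have h3 : ∑' i, ENNReal.ofReal (pm i) = 1 := by rw [h2]; simp
    exact h3 ▸ ENNReal.summable.hasSum⟩

noncomputable def nu : Measure ℕ := nuPMF.toMeasure

instance : IsProbabilityMeasure nu := by unfold nu; infer_instance

theorem nu_singleton (i : ℕ) : nu {i} = ENNReal.ofReal (pm i) := by
  unfold nu
  rw [PMF.toMeasure_apply_singleton _ _ (MeasurableSet.singleton i)]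
  rfl

theorem nu_tail (J : ℕ) : nu {i | J < i} = ENNReal.ofReal (1 / ((J + 2).factorial : ℝ)) := by
  unfold nu
  rw [PMF.toMeasure_apply]
  have h := tail_hasSum (J + 1)
  have h1 : ∑' i, ({i | J < i} : Set ℕ).indicator nuPMF i = ∑' i, ENNReal.ofReal (pm (i + (J + 1))) := by
    rw [← Summable.sum_add_tsum_nat_add' (k := J + 1) (f := ({i | J < i} : Set ℕ).indicator nuPMF) ENNReal.summable]
    have h0 : ∑ i ∈ Finset.range (J + 1), ({i | J < i} : Set ℕ).indicator nuPMF i = 0 := by
      apply Finset.sum_eq_zero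
      intro i hi
      rw [Finset.mem_range] at hi
      rw [Set.indicator_of_notMem]
      simp only [Set.mem_ofPred_eq]
      omega
    rw [h0, zero_add]
    refine tsum_congr (fun i => ?_)
    rw [Set.indicator_of_mem]
    · rfl
    · simp only [Set.mem_ofPred_eq]
      omega
  rw [h1, ← ENNReal.ofReal_tsum_of_nonneg (fun i => (pm_pos _).le) h.summable, h.tsum_eq]
  exact MeasurableSet.of_discrete

/-- The good event: types at most `J`, each appearing in the first and in the second half. -/
def Good (m J : ℕ) (x : Fin (2 * m) → ℕ) : Prop :=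
  (∀ v, x v ≤ J) ∧ ∀ i ≤ J, (∃ u : Fin (2 * m), u.val < m ∧ x u = i) ∧ (∃ v : Fin (2 * m), m ≤ v.val ∧ x v = i)

theorem meas_box (n : ℕ) (P : Fin n → Prop) (i : ℕ) :
    (Measure.pi (fun _ : Fin n => nu)) {x | ∀ u, P u → x u ≠ i} =
      (1 - ENNReal.ofReal (pm i)) ^ (Finset.univ.filter P).card := by
  have : {x : Fin n → ℕ | ∀ u, P u → x u ≠ i} =
      Set.pi Set.univ (fun u => if P u then ({i} : Set ℕ)ᶜ else Set.univ) := by
    ext x
    simp only [Set.mem_ofPred_eq, Set.mem_pi, Set.mem_univ, true_implies]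
    refine forall_congr' (fun u => ?_)
    by_cases h : P u
    · simp [h]
    · simp [h]
  rw [this, Measure.pi_pi]
  have : ∀ u : Fin n, nu (if P u then ({i} : Set ℕ)ᶜ else Set.univ) =
      if P u then (1 - ENNReal.ofReal (pm i)) else 1 := by
    intro u
    split_ifs
    · rw [prob_compl_eq_one_sub (MeasurableSet.singleton i), nu_singleton]
    · simp
  simp_rw [this]
  rw [Finset.prod_ite]
  simp

theorem meas_box_le (m n : ℕ) (P : Fin n → Prop) (i J : ℕ) (hi : i ≤ J)
    (hP : (Finset.univ.filter P).card = m) :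
    (Measure.pi (fun _ : Fin n => nu)) {x | ∀ u, P u → x u ≠ i} ≤
      ENNReal.ofReal (Real.exp (-(m * pm J))) := by
  rw [meas_box, hP]
  have h1 : (1 - ENNReal.ofReal (pm i)) = ENNReal.ofReal (1 - pm i) := by
    rw [ENNReal.ofReal_sub _ (pm_pos i).le, ENNReal.ofReal_one]
  have hle1 : pm i ≤ 1 := by
    have := (tail_hasSum 0).tsum_eq
    have h2 := (tail_hasSum 0).summable.le_tsum i (fun j _ => (pm_pos _).le)
    rw [this] at h2
    simpa using h2
  rw [h1, ← ENNReal.ofReal_pow (by linarith)]
  apply ENNReal.ofReal_le_ofReal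
  have h3 : 1 - pm i ≤ Real.exp (-(pm J)) := by
    have := Real.add_one_le_exp (-(pm J))
    have := pm_antitone hi
    linarith
  calc (1 - pm i) ^ m ≤ (Real.exp (-(pm J))) ^ m := pow_le_pow_left₀ (by linarith) h3 m
    _ = Real.exp (-(m * pm J)) := by
      rw [← Real.exp_nat_mul]; ring_nf

theorem card_lt (m : ℕ) : (Finset.univ.filter (fun u : Fin (2 * m) => u.val < m)).card = m := by
  rw [Fin.card_filter_val_lt]
  omega

theorem card_ge (m : ℕ) : (Finset.univ.filter (fun u : Fin (2 * m) => m ≤ u.val)).card = m := by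
  have h := Finset.card_filter_add_card_filter_not (s := (Finset.univ : Finset (Fin (2 * m))))
    (fun u => u.val < m)
  rw [card_lt] at h
  simp only [not_lt, Finset.card_univ, Fintype.card_fin] at h
  omega

theorem bad_meas (m J : ℕ) :
    (Measure.pi (fun _ : Fin (2 * m) => nu)) {x | ¬ Good m J x} ≤
      ENNReal.ofReal ((2 * m : ℝ) / ((J + 2).factorial : ℝ) +
        2 * (J + 1) * Real.exp (-(m * pm J))) := by
  have hsub : {x : Fin (2 * m) → ℕ | ¬ Good m J x} ⊆
      (⋃ v ∈ (Finset.univ : Finset (Fin (2 * m))), {x | J < x v}) ∪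
      (⋃ i ∈ Finset.range (J + 1), ({x | ∀ u : Fin (2 * m), u.val < m → x u ≠ i} ∪
        {x | ∀ u : Fin (2 * m), m ≤ u.val → x u ≠ i})) := by
    intro x hx
    simp only [Set.mem_ofPred_eq, Good, not_and_or, not_forall] at hx
    rcases hx with ⟨v, hv⟩ | ⟨i, hi, h⟩
    · left
      simp only [Set.mem_iUnion, Finset.mem_univ, exists_prop, true_and]
      exact ⟨v, not_le.mp hv⟩
    · right
      simp only [Set.mem_iUnion, Finset.mem_range, exists_prop]
      refine ⟨i, by omega, ?_⟩
      rcases h with h | h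
      · left
        intro u hu hxu
        exact h ⟨u, hu, hxu⟩
      · right
        intro u hu hxu
        exact h ⟨u, hu, hxu⟩
  refine (measure_mono hsub).trans ((measure_union_le _ _).trans ?_)
  rw [ENNReal.ofReal_add (by positivity) (by positivity)]
  refine add_le_add ?_ ?_
  · refine (measure_biUnion_finset_le _ _).trans ?_
    have : ∀ v : Fin (2 * m), (Measure.pi (fun _ : Fin (2 * m) => nu)) {x | J < x v} =
        ENNReal.ofReal (1 / ((J + 2).factorial : ℝ)) := by
      intro v
      rw [← nu_tail J, ← (measurePreserving_eval (fun _ : Fin (2 * m) => nu) v).measure_preimage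
        (MeasurableSet.of_discrete.nullMeasurableSet)]
      rfl
    simp_rw [this]
    rw [Finset.sum_const, Finset.card_univ, Fintype.card_fin, nsmul_eq_mul]
    rw [← ENNReal.ofReal_natCast, ← ENNReal.ofReal_mul (by positivity)]
    apply ENNReal.ofReal_le_ofReal
    push_cast
    rw [mul_one_div]
  · refine (measure_biUnion_finset_le _ _).trans ?_
    have : ∀ i ∈ Finset.range (J + 1), (Measure.pi (fun _ : Fin (2 * m) => nu))
        ({x | ∀ u : Fin (2 * m), u.val < m → x u ≠ i} ∪
          {x | ∀ u : Fin (2 * m), m ≤ u.val → x u ≠ i}) ≤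
        ENNReal.ofReal (2 * Real.exp (-(m * pm J))) := by
      intro i hi
      rw [Finset.mem_range] at hi
      refine (measure_union_le _ _).trans ?_
      rw [two_mul (Real.exp (-(m * pm J))), ENNReal.ofReal_add (by positivity) (by positivity)]
      exact add_le_add (meas_box_le m _ _ i J (by omega) (by convert card_lt m))
        (meas_box_le m _ _ i J (by omega) (by convert card_ge m))
    refine (Finset.sum_le_sum this).trans ?_
    rw [Finset.sum_const, Finset.card_range, nsmul_eq_mul]
    rw [← ENNReal.ofReal_natCast, ← ENNReal.ofReal_mul (by positivity)]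
    apply ENNReal.ofReal_le_ofReal
    push_cast
    apply le_of_eq
    ring

theorem bad_small : ∀ᶠ J : ℕ in Filter.atTop, ∃ m : ℕ, J < m ∧
    (Measure.pi (fun _ : Fin (2 * m) => nu)) {x | ¬ Good m J x} ≤ ENNReal.ofReal (1 / 2) := by
  have h1 : Filter.Tendsto (fun J : ℕ => 2 * (((J : ℝ) + 1) / 8 * Real.exp (-(((J : ℝ) + 1) / 8))) * 8)
      Filter.atTop (nhds 0) := by
    have h := Real.tendsto_pow_mul_exp_neg_atTop_nhds_zero 1
    simp only [pow_one] at h
    have h2 : Filter.Tendsto (fun J : ℕ => ((J : ℝ) + 1) / 8) Filter.atTop Filter.atTop := by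
      apply Filter.Tendsto.atTop_div_const (by norm_num)
      exact Filter.tendsto_atTop_add_const_right _ _ tendsto_natCast_atTop_atTop
    have h3 := h.comp h2
    have h4 := (h3.const_mul 2).mul_const 8
    simpa using h4
  have h2 := h1.eventually (gt_mem_nhds (show (0 : ℝ) < 1 / 4 by norm_num))
  filter_upwards [h2, Filter.eventually_ge_atTop 10] with J hJ hJ10
  have hdvd : 8 ∣ (J + 2).factorial := by
    have : (8 : ℕ).factorial ∣ (J + 2).factorial := Nat.factorial_dvd_factorial (by omega)
    exact (Nat.dvd_factorial (by norm_num) le_rfl).trans this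
  obtain ⟨m, hm⟩ := hdvd
  refine ⟨m, ?_, ?_⟩
  · have h5 : (J + 2) * (J + 1) * J.factorial = 8 * m := by
      rw [← hm, Nat.factorial_succ, Nat.factorial_succ]; ring
    have h6 : 1 ≤ J.factorial := Nat.factorial_pos J
    have h7 : (J + 2) * (J + 1) ≤ 8 * m := by
      rw [← h5]
      exact Nat.le_mul_of_pos_right _ h6
    nlinarith
  · refine (bad_meas m J).trans (ENNReal.ofReal_le_ofReal ?_)
    have hf : ((J + 2).factorial : ℝ) = 8 * m := by exact_mod_cast hm
    have hmpos : (0 : ℝ) < m := by
      have : (0 : ℝ) < ((J + 2).factorial : ℝ) := by positivity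
      rw [hf] at this
      linarith
    have h8 : (m : ℝ) * pm J = ((J : ℝ) + 1) / 8 := by
      rw [pm_eq, hf]
      field_simp
    rw [h8, hf]
    have h9 : (2 * m : ℝ) / (8 * m) = 1 / 4 := by
      field_simp
      norm_num
    rw [h9]
    have : 2 * ((J : ℝ) + 1) * Real.exp (-(((J : ℝ) + 1) / 8)) < 1 / 4 := by
      calc 2 * ((J : ℝ) + 1) * Real.exp (-(((J : ℝ) + 1) / 8)) =
        2 * (((J : ℝ) + 1) / 8 * Real.exp (-(((J : ℝ) + 1) / 8))) * 8 := by ring
        _ < 1 / 4 := hJ
    linarith

end Pool.Agent.H27R3
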