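import Mathlib

set_option autoImplicit false
open scoped Classical

namespace Pool.Agent.H27R3

variable {α : Type*}

/-- Weight of an ordering. -/
noncomputable def wt (w : α → ℝ) (l : List α) : ℝ :=
  ∏ t ∈ Finset.range l.length,
    (if 0 < ((l.drop t).map w).sum
      then (((l.drop t).take 1).map w).sum / ((l.drop t).map w).sum
      else 1 / ((l.drop t).length : ℝ))

theorem wt_nil (w : α → ℝ) : wt w [] = 1 := by simp [wt]

theorem wt_cons (w : α → ℝ) (a : α) (l : List α) :
    wt w (a :: l) = (if 0 < ((a :: l).map w).sum then w a / ((a :: l).map w).sum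
      else 1 / (((a :: l).length : ℕ) : ℝ)) * wt w l := by
  unfold wt
  rw [List.length_cons, Finset.prod_range_succ', mul_comm]
  congr 1
  simp

theorem wt_nonneg (w : α → ℝ) (hw : ∀ a, 0 ≤ w a) (l : List α) : 0 ≤ wt w l := by
  induction l with
  | nil => simp [wt_nil]
  | cons a l ih =>
    rw [wt_cons]
    refine mul_nonneg ?_ ih
    split_ifs with h
    · exact div_nonneg (hw a) h.le
    · positivity

theorem permutations_toFinset_eq (L : List α) (hL : L ≠ []) :
    L.permutations.toFinset =
      L.toFinset.biUnion (fun a => ((L.erase a).permutations.toFinset).image (List.cons a)) := by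
  ext l
  simp only [List.mem_toFinset, List.mem_permutations, Finset.mem_biUnion, Finset.mem_image]
  constructor
  · intro h
    cases l with
    | nil => exact absurd (List.Perm.symm h).eq_nil hL
    | cons a l =>
      refine ⟨a, h.subset (by simp), l, ?_, rfl⟩
      have := h.erase a
      simpa using this
  · rintro ⟨a, ha, l', hl', rfl⟩
    exact (List.Perm.cons a hl').trans (List.perm_cons_erase ha).symm

theorem sum_wt (w : α → ℝ) (hw : ∀ a, 0 ≤ w a) :
    ∀ (k : ℕ) (L : List α), L.length = k → L.Nodup →
      ∑ l ∈ L.permutations.toFinset, wt w l = 1 := by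
  intro k
  induction k with
  | zero =>
    intro L hL _
    have : L = [] := List.length_eq_zero_iff.mp hL
    subst this
    simp [wt_nil]
  | succ k ih =>
    intro L hL hnd
    have hne : L ≠ [] := by
      rintro rfl
      simp at hL
    rw [permutations_toFinset_eq L hne, Finset.sum_biUnion]
    · have hstep : ∀ a ∈ L.toFinset,
          ∑ l ∈ ((L.erase a).permutations.toFinset).image (List.cons a), wt w l =
            (if 0 < (L.map w).sum then w a / (L.map w).sum else 1 / ((L.length : ℕ) : ℝ)) := by
        intro a ha
        have ha' : a ∈ L := List.mem_toFinset.mp ha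
        rw [Finset.sum_image (fun x _ y _ h => (List.cons.inj h).2)]
        have : ∀ l ∈ (L.erase a).permutations.toFinset, wt w (a :: l) =
            (if 0 < (L.map w).sum then w a / (L.map w).sum else 1 / ((L.length : ℕ) : ℝ)) * wt w l := by
          intro l hl
          simp only [List.mem_toFinset, List.mem_permutations] at hl
          have hp : (a :: l).Perm L := (List.Perm.cons a hl).trans (List.perm_cons_erase ha').symm
          rw [wt_cons, (hp.map w).sum_eq, hp.length_eq]
        rw [Finset.sum_congr rfl this, ← Finset.mul_sum, ih (L.erase a) _ (hnd.erase a), mul_one]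
        rw [List.length_erase_of_mem ha', hL]
        rfl
      rw [Finset.sum_congr rfl hstep]
      split_ifs with h
      · rw [← Finset.sum_div, List.sum_toFinset w hnd]
        exact div_self h.ne'
      · rw [Finset.sum_const, List.toFinset_card_of_nodup hnd, nsmul_eq_mul]
        have : (L.length : ℝ) ≠ 0 := by
          rw [hL]; positivity
        field_simp
    · intro a _ b _ hab
      rw [Function.onFun, Finset.disjoint_left]
      intro l h1 h2
      simp only [Finset.mem_image] at h1 h2
      obtain ⟨l1, _, rfl⟩ := h1
      obtain ⟨l2, _, h⟩ := h2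
      exact hab (List.cons.inj h).1.symm

theorem wt_ne_zero_split (w : α → ℝ) (hw : ∀ a, 0 ≤ w a) (l : List α) (h : wt w l ≠ 0) :
    ∃ T, T ≤ l.length ∧ (∀ p ∈ l.take T, 0 < w p) ∧ (∀ p ∈ l.drop T, w p = 0) := by
  induction l with
  | nil => exact ⟨0, by simp⟩
  | cons a l ih =>
    rw [wt_cons] at h
    have h1 := left_ne_zero_of_mul h
    have h2 := right_ne_zero_of_mul h
    by_cases hS : 0 < ((a :: l).map w).sum
    · rw [if_pos hS] at h1
      obtain ⟨T, hT, hT1, hT2⟩ := ih h2
      refine ⟨T + 1, by simpa using hT, ?_, ?_⟩
      · intro p hp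
        rw [List.take_succ_cons, List.mem_cons] at hp
        rcases hp with rfl | hp
        · refine lt_of_le_of_ne (hw p) ?_
          intro h0
          rw [← h0] at h1
          simp at h1
        · exact hT1 p hp
      · intro p hp
        rw [List.drop_succ_cons] at hp
        exact hT2 p hp
    · refine ⟨0, by simp, by simp, ?_⟩
      intro p hp
      rw [List.drop_zero] at hp
      have hle : w p ≤ ((a :: l).map w).sum :=
        List.single_le_sum (by
          intro x hx
          rw [List.mem_map] at hx
          obtain ⟨y, _, rfl⟩ := hx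
          exact hw y) _ (List.mem_map_of_mem hp)
      exact le_antisymm (hle.trans (not_lt.mp hS)) (hw p)

end Pool.Agent.H27R3
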